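import Pool.Agent.P.MP_22cf7a_nt.KD.Up

/-! Congruences in the coefficient ring and in two by two matrices. -/

set_option autoImplicit false

namespace Pool.Agent.P.MP_22cf7a_nt.KD

open Pool.Agent.P.MP_7cb106_nt.BI Module

theorem frac_dvd {O : Type} [CommRing O] {q c d c' d' s : O} (hd : IsUnit d) (hd' : IsUnit d')
    (h : q ∣ c' * d - c * d' - s * d * d') :
    q ∣ c' * Ring.inverse d' - c * Ring.inverse d - s := by
  have e := Ring.mul_inverse_cancel d hd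
  have e' := Ring.mul_inverse_cancel d' hd'
  have : c' * Ring.inverse d' - c * Ring.inverse d - s =
      (c' * d - c * d' - s * d * d') * (Ring.inverse d * Ring.inverse d') := by
    linear_combination (-(c' * Ring.inverse d') + s * d' * Ring.inverse d') * e +
      (c * Ring.inverse d + s) * e'
  rw [this]
  exact h.mul_right _

theorem frac_eq {O : Type} [CommRing O] {c d c' d' : O} (hd : IsUnit d) (hd' : IsUnit d')
    (h : c' * d = c * d') : c' * Ring.inverse d' = c * Ring.inverse d := by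
  have := frac_dvd (q := 0) (s := 0) (c := c) (c' := c') hd hd' (by rw [h]; simp)
  rwa [zero_dvd_iff, sub_zero, sub_eq_zero] at this

theorem pow_exp {O : Type} [CommRing O] (q v : O) (n : ℕ) :
    ∃ w, (1 + q * v) ^ n = 1 + q * (n * v + q * w) := by
  induction n with
  | zero => exact ⟨0, by simp⟩
  | succ n ih =>
    obtain ⟨w, hw⟩ := ih
    exact ⟨w + v * (n * v + q * w), by rw [pow_succ, hw]; push_cast; ring⟩

variable {p : ℕ} [Fact p.Prime] {O : Type} [CommRing O] [Algebra ℤ_[p] O]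

theorem pw_smul (n : ℕ) (y : O) : (p : O) ^ n * y = ((p : ℤ_[p]) ^ n) • y := by
  rw [Algebra.smul_def, map_pow, map_natCast]

theorem dv (l : O →ₗ[ℤ_[p]] ℤ_[p]) {n : ℕ} {y : O} (h : (p : O) ^ n ∣ y) :
    (p : ℤ_[p]) ^ n ∣ l y := by
  obtain ⟨z, rfl⟩ := h
  rw [pw_smul, map_smul]
  exact dvd_mul_right _ _

theorem p_ne [IsDomain O] [Module.Free ℤ_[p] O] : (p : O) ≠ 0 := by
  have h : algebraMap ℤ_[p] O p ≠ 0 := (map_ne_zero_iff _
    (FaithfulSMul.algebraMap_injective ℤ_[p] O)).2 (Nat.cast_ne_zero.2 (Fact.out : p.Prime).ne_zero)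
  rwa [map_natCast] at h

theorem dual {f : ℕ} (ω : Basis (Fin f) ℤ_[p] O) (y : Fin f → O) :
    ∃ l : Fin f → O →ₗ[ℤ_[p]] ℤ_[p], ∀ i i', l i (ω i' + p * y i') = if i = i' then 1 else 0 := by
  obtain ⟨B, hB⟩ := (all_UNIT p ℤ_[p] (Fin f) (Matrix.of fun i i' => ω.repr (y i') i)).exists_left_inv
  refine ⟨fun i => ∑ k, B i k • ω.coord k, fun i i' => ?_⟩
  have h := congrFun (congrFun hB i) i'
  rw [Matrix.mul_apply, Matrix.one_apply] at h
  rw [← h, LinearMap.sum_apply]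
  refine Finset.sum_congr rfl fun k _ => ?_
  have := pw_smul (p := p) 1 (y i')
  rw [pow_one, pow_one] at this
  simp [this, Matrix.one_apply, Finsupp.single_apply, eq_comm]

variable [Module.Finite ℤ_[p] O]

theorem unit1 (y : O) : IsUnit (1 + (p : O) * y) := by
  have := (Matrix.isUnit_iff_isUnit_det _).1 (all_UNIT p O Unit (Matrix.of fun _ _ => y))
  simpa using this

theorem unit2 {e : ℕ} (he : 3 ≤ p ^ e) (y : O) : IsUnit (1 + (p : O) ^ e * y) := by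
  obtain ⟨e, rfl⟩ : ∃ e', e = e' + 1 := ⟨e - 1, by
    rcases e with _ | e
    · simp at he
    · rfl⟩
  rw [pow_succ', mul_assoc]
  exact unit1 _

theorem ex_el {n : Type} [Fintype n] [DecidableEq n] {e : ℕ} (he : 3 ≤ p ^ e)
    (X : Matrix n n O) : ∃ g : Cg O n ((p : O) ^ e), g.1.1 = 1 + (p : O) ^ e • X := by
  obtain ⟨e, rfl⟩ : ∃ e', e = e' + 1 := ⟨e - 1, by
    rcases e with _ | e
    · simp at he
    · rfl⟩
  obtain ⟨u, hu⟩ := all_UNIT p O n ((p : O) ^ e • X)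
  rw [smul_smul, ← pow_succ'] at hu
  exact ⟨⟨u, mem_Cg.2 ⟨X, hu⟩⟩, hu⟩

omit [Fact p.Prime] [Algebra ℤ_[p] O] [Module.Finite ℤ_[p] O] in
theorem ent {e : ℕ} (x : Cg O (Fin 2) ((p : O) ^ e)) : ∃ a b c d : O,
    x.1.1 0 0 = 1 + (p : O) ^ e * a ∧ x.1.1 0 1 = (p : O) ^ e * b ∧ x.1.1 1 0 = (p : O) ^ e * c ∧
    x.1.1 1 1 = 1 + (p : O) ^ e * d := by
  obtain ⟨X, hX⟩ := mem_Cg.1 x.2
  exact ⟨X 0 0, X 0 1, X 1 0, X 1 1, by simp [hX], by simp [hX], by simp [hX], by simp [hX]⟩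

theorem unit_d {e : ℕ} (he : 3 ≤ p ^ e) (x : Cg O (Fin 2) ((p : O) ^ e)) : IsUnit (x.1.1 1 1) := by
  obtain ⟨_, _, _, d, _, _, _, h⟩ := ent x
  rw [h]; exact unit2 he d

omit [Fact p.Prime] [Algebra ℤ_[p] O] [Module.Finite ℤ_[p] O] in
theorem mul_ent {e : ℕ} (k x : Cg O (Fin 2) ((p : O) ^ e)) (i j : Fin 2) :
    (k * x).1.1 i j = k.1.1 i 0 * x.1.1 0 j + k.1.1 i 1 * x.1.1 1 j := by
  change (k.1.1 * x.1.1) i j = _
  rw [Matrix.mul_apply, Fin.sum_univ_two]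

omit [Fact p.Prime] [Algebra ℤ_[p] O] [Module.Finite ℤ_[p] O] in
theorem gam_ent {e l : ℕ} (x : Cg O (Fin 2) ((p : O) ^ e)) {γ : Cg O (Fin 2) ((p : O) ^ e)}
    (hγ : γ ∈ Gam p O (Fin 2) e l) (i j : Fin 2) :
    ∃ y, (x * γ).1.1 i j = x.1.1 i j + (p : O) ^ (e + l) * y := by
  obtain ⟨X, hX⟩ := mem_Gam.1 hγ
  refine ⟨(x.1.1 * X) i j, ?_⟩
  change (x.1.1 * γ.1.1) i j = _
  rw [hX, mul_add, mul_one, Matrix.mul_smul, Matrix.add_apply, Matrix.smul_apply, smul_eq_mul]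

theorem factor {F G A : Type} [Field F] [Fintype A] [Nonempty G] (c : G → A)
    (W : Submodule F (G → F)) (h : ∀ φ ∈ W, ∀ x y, c x = c y → φ x = φ y) :
    FiniteDimensional F W ∧ finrank F W ≤ Fintype.card A := by
  have h1 : W ≤ LinearMap.range (LinearMap.funLeft F F c) := fun φ hφ =>
    ⟨fun a => φ (Function.invFun c a), funext fun x =>
      h φ hφ _ _ (Function.invFun_eq ⟨x, rfl⟩)⟩
  refine ⟨Submodule.finiteDimensional_of_le h1, (Submodule.finrank_mono h1).trans ?_⟩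
  exact (LinearMap.finrank_range_le _).trans (by simp)

end Pool.Agent.P.MP_22cf7a_nt.KD
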