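import Mathlib

/-! Deviation of an interval along ascending chains. -/

set_option autoImplicit false

namespace Pool.Agent.P.MP_22cf7a_nt.KD

/-- `Dev 0 a b`: the interval `[a, b]` is trivial.  `Dev (k + 1) a b`: in every ascending chain
inside `[a, b]` all but finitely many steps satisfy `Dev k`.  So `Dev (k + 1) a b` says that the
deviation of `[a, b]` along ascending chains is at most `k`. -/
def Dev {L : Type} [Preorder L] : ℕ → L → L → Prop
  | 0, a, b => b ≤ a
  | k + 1, a, b => ∀ x : ℕ → L, Monotone x → (∀ i, a ≤ x i ∧ x i ≤ b) →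
      ∃ N, ∀ i, N ≤ i → Dev k (x i) (x (i + 1))

end Pool.Agent.P.MP_22cf7a_nt.KD
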