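import Pool.Agent.P.MP_22cf7a_nt.KD.Defs

/-! General facts on the deviation, and lower bounds from chains of subgroups. -/

set_option autoImplicit false

namespace Pool.Agent.P.MP_22cf7a_nt.KD

section gen
variable {L L' : Type} [Preorder L] [Preorder L']

theorem Dev.shrink {k : ℕ} {a b a' b' : L} (h : Dev k a b) (ha : a ≤ a') (hb : b' ≤ b) :
    Dev k a' b' := by
  cases k with
  | zero => exact hb.trans (le_trans h ha)
  | succ k => exact fun x hx hi => h x hx fun i => ⟨ha.trans (hi i).1, (hi i).2.trans hb⟩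

theorem Dev.succ {k : ℕ} {a b : L} (h : Dev k a b) : Dev (k + 1) a b := by
  induction k generalizing a b with
  | zero => exact fun x _ hi => ⟨0, fun i _ => (hi (i + 1)).2.trans (le_trans h (hi i).1)⟩
  | succ k ih =>
    intro x hx hi
    obtain ⟨N, hN⟩ := h x hx hi
    exact ⟨N, fun i hi => ih (hN i hi)⟩

theorem Dev.mono {k k' : ℕ} {a b : L} (h : Dev k a b) (hk : k ≤ k') : Dev k' a b := by
  induction k', hk using Nat.le_induction with
  | base => exact h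
  | succ n _ ih => exact ih.succ

theorem Dev.comap (ι : L → L') (hι : Monotone ι) {k : ℕ} {a b : L}
    (hr : ∀ x y, a ≤ x → x ≤ b → a ≤ y → y ≤ b → ι x ≤ ι y → x ≤ y) (hab : a ≤ b)
    (h : Dev k (ι a) (ι b)) : Dev k a b := by
  induction k generalizing a b with
  | zero => exact hr b a hab le_rfl le_rfl hab h
  | succ k ih =>
    intro x hx hi
    obtain ⟨N, hN⟩ := h (fun i => ι (x i)) (hι.comp hx) fun i => ⟨hι (hi i).1, hι (hi i).2⟩
    exact ⟨N, fun i hi' => ih (fun y z h1 h2 h3 h4 => hr y z ((hi i).1.trans h1)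
      (h2.trans (hi _).2) ((hi i).1.trans h3) (h4.trans (hi _).2)) (hx (Nat.le_succ i)) (hN i hi')⟩

end gen

section fn
variable {F G : Type} [Field F] [Group G]

/-- right translation -/
def rt (F G : Type) [Field F] [Group G] : Representation F G (G → F) where
  toFun g := LinearMap.funLeft F F fun x => x * g
  map_one' := by ext; simp
  map_mul' g h := by ext φ x; simp [mul_assoc]

theorem rt_apply (g : G) (φ : G → F) (x : G) : rt F G g φ x = φ (x * g) := rfl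

/-- invariance under a step of the filtration -/
def SmF (Γ : ℕ → Subgroup G) (φ : G → F) : Prop := ∃ l, ∀ x, ∀ γ ∈ Γ l, φ (x * γ) = φ x

variable {Γ : ℕ → Subgroup G}

omit [Field F] in
theorem SmF.op (hΓ : Antitone Γ) {φ ψ : G → F} (h : SmF Γ φ) (h' : SmF Γ ψ) (f : F → F → F) :
    SmF Γ fun x => f (φ x) (ψ x) := by
  obtain ⟨l, hl⟩ := h
  obtain ⟨l', hl'⟩ := h'
  exact ⟨max l l', fun x γ hγ => by
    simp only [hl x γ (hΓ (le_max_left _ _) hγ), hl' x γ (hΓ (le_max_right _ _) hγ)]⟩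

/-- smooth functions invariant under left translation by a set -/
def Inv (F : Type) [Field F] (Γ : ℕ → Subgroup G) (hΓ : Antitone Γ) (hN : ∀ l, (Γ l).Normal)
    (H : Set G) : Subrepresentation (rt F G) where
  toSubmodule :=
    { carrier := {φ | SmF Γ φ ∧ ∀ h ∈ H, ∀ x, φ (h * x) = φ x}
      add_mem' := fun ha hb => ⟨ha.1.op hΓ hb.1 (· + ·), fun h hh x => by
        simp only [Pi.add_apply, ha.2 h hh x, hb.2 h hh x]⟩
      zero_mem' := ⟨⟨0, fun _ _ _ => rfl⟩, fun _ _ _ => rfl⟩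
      smul_mem' := fun c _ ha => ⟨ha.1.op hΓ ha.1 fun a _ => c • a, fun h hh x => by
        simp only [Pi.smul_apply, ha.2 h hh x]⟩ }
  apply_mem_toSubmodule g φ := fun ⟨⟨l, hl⟩, h2⟩ => ⟨⟨l, fun x γ hγ => by
      have := hl (x * g) _ ((hN l).conj_mem' γ hγ g)
      rw [rt_apply, rt_apply, ← this]; congr 1; group⟩,
    fun h hh x => by rw [rt_apply, rt_apply, mul_assoc, h2 h hh]⟩

variable {hΓ : Antitone Γ} {hN : ∀ l, (Γ l).Normal}

theorem mem_Inv {H : Set G} {φ : G → F} :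
    φ ∈ Inv F Γ hΓ hN H ↔ SmF Γ φ ∧ ∀ h ∈ H, ∀ x, φ (h * x) = φ x := Iff.rfl

theorem Inv_anti {H H' : Set G} (h : H ⊆ H') : Inv F Γ hΓ hN H' ≤ Inv F Γ hΓ hN H :=
  fun _ hφ => ⟨hφ.1, fun k hk => hφ.2 k (h hk)⟩

theorem step {H H' : Set G} (hH : H ⊆ H') {h : G} (hh : h ∈ H') {χ : G → F} (h1 : SmF Γ χ)
    (h2 : ∀ k ∈ H, ∀ x, χ (k * x) = χ x) (h3 : ∀ x, χ (h * x) = χ x + 1) {k : ℕ}
    (hd : Dev k (Inv F Γ hΓ hN H') (Inv F Γ hΓ hN H)) : Dev k ⊥ (Inv F Γ hΓ hN H') := by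
  let T : (G → F) →ₗ[F] (G → F) := LinearMap.funLeft F F (fun x => h * x) - LinearMap.id
  have hT : ∀ φ x, T φ x = φ (h * x) - φ x := fun _ _ => rfl
  let ι : Subrepresentation (rt F G) → Subrepresentation (rt F G) := fun W =>
    Inv F Γ hΓ hN H ⊓ ⟨W.toSubmodule.comap T, fun g φ hφ => by
      have e : T (rt F G g φ) = rt F G g (T φ) := by
        funext x; simp only [hT, rt_apply, mul_assoc]
      rw [Submodule.mem_comap, e]
      exact W.apply_mem_toSubmodule g hφ⟩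
  refine Dev.comap ι (fun a b hab φ hφ => ⟨hφ.1, hab hφ.2⟩) (fun a b _ ha _ _ hab w hw => ?_)
    bot_le (hd.shrink (fun φ hφ => ⟨Inv_anti hH hφ, ?_⟩) inf_le_left)
  · have hw' := ha hw
    have e : T (fun x => χ x * w x) = w := by
      funext x; rw [hT, h3, hw'.2 h hh]; ring
    have h4 : (fun x => χ x * w x) ∈ ι a := ⟨⟨h1.op hΓ hw'.1 (· * ·), fun k hk x => by
      simp only [h2 k hk, hw'.2 k (hH hk)]⟩, by
        change T _ ∈ a.toSubmodule
        rw [e]; exact hw⟩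
    have h5 : T _ ∈ b.toSubmodule := (hab h4).2
    rwa [e] at h5
  · change T φ ∈ (⊥ : Submodule F (G → F))
    rw [Submodule.mem_bot]
    funext x; rw [hT, hφ.2 h hh, sub_self]; rfl

theorem link {H H' : Set G} (hH : H ⊆ H') (h : ℕ → G) (hh : ∀ j, h j ∈ H') (χ : ℕ → G → F)
    (h1 : ∀ j, SmF Γ (χ j)) (h2 : ∀ j, ∀ k ∈ H, ∀ x, χ j (k * x) = χ j x)
    (h3 : ∀ j x, χ j (h j * x) = χ j x + 1) (h4 : ∀ j i, j < i → ∀ x, χ j (h i * x) = χ j x)
    {k : ℕ} (hd : Dev (k + 1) ⊥ (Inv F Γ hΓ hN H)) : Dev k ⊥ (Inv F Γ hΓ hN H') := by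
  let S : ℕ → Set G := fun j => H ∪ {y | ∃ i, j ≤ i ∧ y = h i}
  have hS : ∀ i j, i ≤ j → S j ⊆ S i := fun i j hij y hy =>
    hy.imp id fun ⟨n, hn, e⟩ => ⟨n, hij.trans hn, e⟩
  obtain ⟨N, hN'⟩ := hd (fun j => Inv F Γ hΓ hN (S j)) (fun i j hij => Inv_anti (hS i j hij))
    fun j => ⟨bot_le, Inv_anti Set.subset_union_left⟩
  refine (step (hS N (N + 1) (Nat.le_succ N)) (Or.inr ⟨N, le_rfl, rfl⟩) (h1 N) ?_ (h3 N)
    (hN' N le_rfl)).shrink le_rfl (Inv_anti ?_)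
  · rintro y (hy | ⟨i, hi, rfl⟩)
    · exact h2 N y hy
    · exact h4 N i hi
  · rintro y (hy | ⟨i, -, rfl⟩)
    · exact hH hy
    · exact hh i

theorem not_dev_zero (H : Set G) : ¬ Dev 0 ⊥ (Inv F Γ hΓ hN H) := fun h => by
  have h1 : (fun _ => (1 : F)) ∈ Inv F Γ hΓ hN H := ⟨⟨0, fun _ _ _ => rfl⟩, fun _ _ _ => rfl⟩
  have h2 : (fun _ : G => (1 : F)) ∈ (⊥ : Submodule F (G → F)) := h h1
  rw [Submodule.mem_bot] at h2
  exact one_ne_zero (congrFun h2 1)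

end fn

section digit
variable {p : ℕ} [Fact p.Prime]

/-- a digit of a `p`-adic integer -/
noncomputable def dig (F : Type) [Field F] (j : ℕ) (t : ℤ_[p]) : F :=
  ((PadicInt.toZModPow (j + 1) t).val / p ^ j : ℕ)

theorem toZ_eq {j : ℕ} {s t : ℤ_[p]} (h : (p : ℤ_[p]) ^ j ∣ s - t) :
    PadicInt.toZModPow j s = PadicInt.toZModPow j t := by
  rw [← sub_eq_zero, ← map_sub, ← RingHom.mem_ker, PadicInt.ker_toZModPow,
    Ideal.mem_span_singleton]
  exact h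

theorem dig_eq {F : Type} [Field F] {j : ℕ} {s t : ℤ_[p]} (h : (p : ℤ_[p]) ^ (j + 1) ∣ s - t) :
    dig F j s = dig F j t := by rw [dig, dig, toZ_eq h]

theorem dig_succ {F : Type} [Field F] [CharP F p] {j : ℕ} {s t : ℤ_[p]}
    (h : (p : ℤ_[p]) ^ (j + 1) ∣ s - t - p ^ j) : dig F j s = dig F j t + 1 := by
  have hp := (Fact.out : p.Prime)
  have : NeZero (p ^ (j + 1)) := ⟨pow_ne_zero _ hp.ne_zero⟩
  have e : PadicInt.toZModPow (j + 1) s =
      PadicInt.toZModPow (j + 1) t + ((p ^ j : ℕ) : ZMod (p ^ (j + 1))) := by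
    rw [toZ_eq (t := t + (p : ℤ_[p]) ^ j) (by rwa [← sub_sub])]; simp
  have h1 : p ^ j < p ^ (j + 1) := Nat.pow_lt_pow_right hp.one_lt (Nat.lt_succ_self j)
  rw [dig, dig, e, ZMod.val_add, ZMod.val_natCast, Nat.mod_eq_of_lt h1]
  generalize (PadicInt.toZModPow (j + 1) t).val = v
  rw [pow_succ, Nat.mod_mul_right_div_self, Nat.add_div_right _ (pow_pos hp.pos j),
    ← CharP.natCast_eq_natCast_mod F p, Nat.cast_succ]

end digit

/-- a link of the chain, from `p`-adic coordinates -/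
theorem link_dig {p : ℕ} [Fact p.Prime] {F G : Type} [Field F] [CharP F p] [Group G]
    {Γ : ℕ → Subgroup G} {hΓ : Antitone Γ} {hN : ∀ l, (Γ l).Normal} {H H' : Set G} (hH : H ⊆ H')
    (e : ℕ) (h : ℕ → G) (hh : ∀ j, h j ∈ H') (t : ℕ → G → ℤ_[p])
    (h1 : ∀ j, ∃ l, ∀ x, ∀ γ ∈ Γ l, (p : ℤ_[p]) ^ (e + j + 1) ∣ t j (x * γ) - t j x)
    (h2 : ∀ j, ∀ k ∈ H, ∀ x, (p : ℤ_[p]) ^ (e + j + 1) ∣ t j (k * x) - t j x)
    (h3 : ∀ j i, j ≤ i → ∀ x, (p : ℤ_[p]) ^ (e + j + 1) ∣ t j (h i * x) - t j x - p ^ (e + i))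
    {k : ℕ} (hd : Dev (k + 1) ⊥ (Inv F Γ hΓ hN H)) : Dev k ⊥ (Inv F Γ hΓ hN H') := by
  refine link hH h hh (fun j x => dig F (e + j) (t j x)) (fun j => ?_)
    (fun j k hk x => dig_eq (h2 j k hk x)) (fun j x => dig_succ (h3 j j le_rfl x))
    (fun j i hi x => dig_eq ?_) hd
  · obtain ⟨l, hl⟩ := h1 j
    exact ⟨l, fun x γ hγ => dig_eq (hl x γ hγ)⟩
  · have := (h3 j i hi.le x).add (pow_dvd_pow (p : ℤ_[p]) (by omega : e + j + 1 ≤ e + i))
    rwa [sub_add_cancel] at this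

end Pool.Agent.P.MP_22cf7a_nt.KD
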