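import Pool.Agent.P.MP_7cb106_nt.BI.All
import Pool.Agent.P.MP_22cf7a_nt.FL.Abs
import Pool.Agent.P.MP_22cf7a_nt.KD.Low

/-! Upper bound of the deviation from the growth of the filtration. -/

set_option autoImplicit false

namespace Pool.Agent.P.MP_22cf7a_nt.KD

open Pool.Agent.P.MP_7cb106_nt.BI Pool.Agent.P.MP_22cf7a_nt.FL Module

variable {F V G : Type} [Field F] [AddCommGroup V] [Module F V] [Group G]
  {Γ : ℕ → Subgroup G} {ρ : G →* Module.End F V}

theorem fil_qrep {σ : Submodule F V} {hσ : ∀ x, ∀ v ∈ σ, ρ x v ∈ σ} (j : ℕ) {v : V}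
    (hv : v ∈ fil ρ j) : σ.mkQ v ∈ fil (qrep ρ σ hσ) j := by
  induction j generalizing v with
  | zero =>
    rw [fil_zero, Submodule.mem_bot] at hv ⊢
    rw [hv, map_zero]
  | succ j ih =>
    refine mem_fil_succ.2 fun x => ?_
    rw [qrep_mk, ← map_sub]
    exact ih (mem_fil_succ.1 hv x)

theorem rk_conv {σ σ' W : Submodule F V} [FiniteDimensional F W] (hl : σ ≤ σ')
    (U : Submodule F (σ'.map σ.mkQ)) [FiniteDimensional F U]
    (hU : ∀ v ∈ W, ∀ hv : σ.mkQ v ∈ σ'.map σ.mkQ, (⟨_, hv⟩ : σ'.map σ.mkQ) ∈ U) :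
    finrank F ↥(σ' ⊓ W) ≤ finrank F ↥(σ ⊓ W) + finrank F U := by
  have : FiniteDimensional F ↥(σ' ⊓ W) := Submodule.finiteDimensional_inf_right _ _
  have h1 : (σ' ⊓ W).map σ.mkQ ≤ U.map (σ'.map σ.mkQ).subtype := by
    rintro _ ⟨v, ⟨h1, h2⟩, rfl⟩
    exact ⟨⟨_, v, h1, rfl⟩, hU v h2 _, rfl⟩
  have h3 := (σ.mkQ.comp (σ' ⊓ W).subtype).finrank_range_add_finrank_ker
  rw [LinearMap.range_comp, Submodule.range_subtype, LinearMap.ker_comp, Submodule.ker_mkQ] at h3
  have h4 : finrank F (σ.comap (σ' ⊓ W).subtype) = finrank F ↥(σ ⊓ W) := by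
    rw [← Submodule.finrank_map_subtype_eq, Submodule.map_comap_subtype, inf_comm, ← inf_assoc,
      inf_eq_left.2 hl]
  have h5 := Submodule.finrank_mono h1
  rw [Submodule.finrank_map_subtype_eq] at h5
  omega

/-- dimension of a step of the filtration of a subrepresentation -/
noncomputable def rk (σ : Subrepresentation (ρ : Representation F G V)) (J : ℕ) : ℕ :=
  finrank F ↥(σ.toSubmodule ⊓ fil ρ J)

/-- large steps -/
def Big (d : ℕ) (σ σ' : Subrepresentation (ρ : Representation F G V)) : Prop :=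
  ∃ c, ∀ j J, j + 1 + c ≤ J → rk σ J + (j + d).choose d ≤ rk σ' J

/-- growth -/
def Gr (p d : ℕ) (σ σ' : Subrepresentation (ρ : Representation F G V)) : Prop :=
  ∃ C, ∀ l, rk σ' (p ^ l) ≤ rk σ (p ^ l) + C * p ^ (d * l)

theorem few {p d : ℕ} (hp : 2 ≤ p) (hfin : ∀ J, FiniteDimensional F (fil ρ J))
    {σ σ' : Subrepresentation (ρ : Representation F G V)} (h : Gr p d σ σ')
    (x : ℕ → Subrepresentation (ρ : Representation F G V)) (hx : Monotone x)
    (hi : ∀ i, σ ≤ x i ∧ x i ≤ σ') : ∃ N, ∀ i, N ≤ i → ¬ Big d (x i) (x (i + 1)) := by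
  classical
  obtain ⟨C, hC⟩ := h
  have hm : ∀ {a b : Subrepresentation (ρ : Representation F G V)}, a ≤ b → ∀ J,
      rk a J ≤ rk b J := fun {a b} hab J => by
    have := hfin J
    have : FiniteDimensional F ↥(b.toSubmodule ⊓ fil ρ J) :=
      Submodule.finiteDimensional_inf_right _ _
    exact Submodule.finrank_mono (inf_le_inf_right _ hab)
  refine bdd_of_card (A := {n | Big d (x n) (x (n + 1))}) (B := d.factorial * C * p ^ d)
    fun S hS => ?_
  choose! c hc using hS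
  refine num hp S c fun j l hl => ?_
  refine card_up (fun n => rk (x n) (p ^ l) - rk σ (p ^ l))
    (fun a b hab => Nat.sub_le_sub_right (hm (hx hab) _) _) _ _ (fun n => ?_) S fun n hn => ?_
  · have := hm (hi n).2 (p ^ l)
    have := hC l
    omega
  · have := hc n hn j _ (hl n hn)
    have := hm (hi n).1 (p ^ l)
    omega

theorem dev_one {σ σ' : Subrepresentation (ρ : Representation F G V)}
    (h : FDq σ.toSubmodule σ'.toSubmodule) : Dev 1 σ σ' := by
  obtain ⟨W, hW, h⟩ := h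
  intro x hx hi
  have h2 : ∀ n, (x n).toSubmodule = σ.toSubmodule ⊔ (x n).toSubmodule ⊓ W := fun n =>
    modular (hi n).1 (le_trans (hi n).2 h)
  obtain ⟨n, hn⟩ := monotone_stabilizes_iff_noetherian.2 (inferInstance : IsNoetherian F W)
    ⟨fun n => (x n).toSubmodule.comap W.subtype, fun a b hab => Submodule.comap_mono (hx hab)⟩
  have h3 : ∀ k, n ≤ k → (x n).toSubmodule ⊓ W = (x k).toSubmodule ⊓ W := fun k hk => by
    have := congrArg (Submodule.map W.subtype) (hn k hk)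
    simpa [Submodule.map_comap_subtype, inf_comm] using this
  refine ⟨n, fun i hi => ?_⟩
  change (x (i + 1)).toSubmodule ≤ (x i).toSubmodule
  rw [h2 i, h2 (i + 1), ← h3 i hi, ← h3 (i + 1) (by omega)]

theorem upper (p c m : ℕ) [Fact p.Prime] [CharP F p] {D : ℕ} {g : Fin D → G} (hW : WU p c Γ g)
    (hS : Sm Γ ρ) (Z : Set G) (hZ : ∀ z ∈ Z, ρ z = 1)
    (hfin : ∀ J, FiniteDimensional F (fil ρ J))
    (hcore : ∀ (W : Type) [AddCommGroup W] [Module F W] (τ : G →* Module.End F W), Sm Γ τ →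
      (∀ z ∈ Z, ∃ a : F, ∀ v, τ z v = a • v) → FiniteDimensional F (fil τ 1) →
      ¬ FiniteDimensional F W →
      ∀ j, (((j + m).choose m : ℕ) : Cardinal) ≤ Module.rank F (fil τ (j + 1))) (t : ℕ)
    {σ σ' : Subrepresentation (ρ : Representation F G V)} (h : Gr p (m + t) σ σ') :
    Dev (t + 2) σ σ' := by
  have hp := (Fact.out : p.Prime).two_le
  obtain ⟨d, φ, hL⟩ := all_LDA p c F V G Γ D g ρ hW hS (hfin 1)
  have hE := all_EXH p c F V G Γ D g ρ hW hS
  have key : ∀ a b : Subrepresentation (ρ : Representation F G V), a ≤ b →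
      (Big m a b ∨ FDq a.toSubmodule b.toSubmodule) ∧ ∀ d, Big (d + 1) a b ∨ Gr p d a b := by
    intro a b hl
    have ha : ∀ x, ∀ v ∈ a.toSubmodule, ρ x v ∈ a.toSubmodule := fun x _ hv =>
      a.apply_mem_toSubmodule x hv
    have hb : ∀ x, ∀ v ∈ b.toSubmodule, ρ x v ∈ b.toSubmodule := fun x _ hv =>
      b.apply_mem_toSubmodule x hv
    obtain ⟨c0, hc⟩ := arq hL hE _ ha
    let τ := srep (qrep ρ _ ha) (b.toSubmodule.map a.toSubmodule.mkQ) (map_inv hb)
    have hτ : Sm Γ τ := sm_srep (sm_qrep hS)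
    have hU : ∀ j J, j + c0 ≤ J → FiniteDimensional F (fil τ j) ∧
        rk a J + finrank F (fil τ j) ≤ rk b J := fun j J hJ => by
      have := hfin J
      have h0 : a.toSubmodule ⊔ fil ρ (j + c0) ≤ a.toSubmodule ⊔ fil ρ J :=
        sup_le_sup_left (fil_mono (ρ := ρ) hJ) _
      exact rk_step hl _ fun v hv hu => h0 (hc j v ((fil_srep j _).1 hu))
    have hB : ∀ d, (∀ j, (((j + d).choose d : ℕ) : Cardinal) ≤ Module.rank F (fil τ (j + 1))) →
        Big d a b := fun d h1 => ⟨c0, fun j J hJ => by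
      obtain ⟨h2, h3⟩ := hU (j + 1) J hJ
      have h4 := h1 j
      rw [← finrank_eq_rank, Nat.cast_le] at h4
      omega⟩
    refine ⟨?_, fun d => ?_⟩
    · by_cases hf : FiniteDimensional F (b.toSubmodule.map a.toSubmodule.mkQ)
      · exact Or.inr (fdq_of_fd hf)
      refine Or.inl (hB m (hcore _ τ hτ (fun z hz => ⟨1, fun v => ?_⟩) (hU 1 _ le_rfl).1 hf))
      obtain ⟨_, w, hw, rfl⟩ := v
      refine Subtype.ext ?_
      rw [srep_coe, qrep_mk, hZ z hz, one_smul, Module.End.one_apply]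
    · refine (all_DICH p c F _ G Γ D g τ hW hτ (hU 1 _ le_rfl).1 (d + 1) (by omega)).imp (hB _) ?_
      rintro ⟨C, hC⟩
      refine ⟨C * 2 ^ d, fun l => ?_⟩
      obtain ⟨h1, h2⟩ := hC (p ^ l)
      have := hfin (p ^ l)
      refine (rk_conv hl (fil τ (p ^ l)) fun v hv _ => (fil_srep _ _).2 (fil_qrep _ hv)).trans
        (Nat.add_le_add_left (h2.trans ?_) _)
      have h3 : p ^ l + 1 ≤ 2 * p ^ l := by
        have := Nat.one_le_pow l p (by omega)
        omega
      rw [Nat.add_sub_cancel, mul_assoc, mul_comm d, pow_mul, ← mul_pow]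
      gcongr
  induction t generalizing σ σ' with
  | zero =>
    intro x hx hi
    obtain ⟨N, hN⟩ := few hp hfin h x hx hi
    exact ⟨N, fun i hi => dev_one ((key _ _ (hx (Nat.le_succ i))).1.resolve_left (hN i hi))⟩
  | succ t ih =>
    intro x hx hi
    obtain ⟨N, hN⟩ := few hp hfin h x hx hi
    exact ⟨N, fun i hi => ih (((key _ _ (hx (Nat.le_succ i))).2 _).resolve_left (hN i hi))⟩

end Pool.Agent.P.MP_22cf7a_nt.KD
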