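import Pool.Agent.P.MP_22cf7a_nt.KD.Iw
import Pool.Agent.P.MP_22cf7a_nt.KD.Up

/-! Duality between left ideals and subrepresentations. -/

set_option autoImplicit false

namespace Pool.Agent.P.MP_22cf7a_nt.KD

open Pool.Agent.P.MP_7cb106_nt.BI Module OrderDual

theorem devLt_iff {L : Type} [Preorder L] (k : ℕ) (a b : L) :
    DevLt k a b ↔ Dev k (toDual b) (toDual a) := by
  induction k generalizing a b with
  | zero => exact Iff.rfl
  | succ k ih =>
    constructor
    · intro h x hx hi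
      obtain ⟨N, hN⟩ := h (fun i => ofDual (x i)) hx fun i => ⟨(hi i).2, (hi i).1⟩
      exact ⟨N, fun i hi => (ih _ _).1 (hN i hi)⟩
    · intro h x hx hi
      obtain ⟨N, hN⟩ := h (fun i => toDual (x i)) hx fun i => ⟨(hi i).2, (hi i).1⟩
      exact ⟨N, fun i hi => (ih _ _).2 (hN i hi)⟩

variable {F V G R : Type} [Field F] [AddCommGroup V] [Module F V] [Group G] [Ring R]

/-- the ring is the dual of the representation -/
structure Pair (ρ : G →* Module.End F V) (E : R →+ Module.Dual F V) (T : R → V →ₗ[F] V)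
    (ev : V →ₗ[F] G → F) : Prop where
  bij : Function.Bijective E
  inj : Function.Injective ev
  mul : ∀ r a φ, E (r * a) φ = E r (T a φ)
  evT : ∀ a φ x, ev (T a φ) x = E a (ρ x φ)

variable {ρ : G →* Module.End F V} {E : R →+ Module.Dual F V} {T : R → V →ₗ[F] V}
  {ev : V →ₗ[F] G → F}

theorem Pair.T_zero (h : Pair ρ E T ev) {a : R} {φ : V} :
    T a φ = 0 ↔ ∀ x, E a (ρ x φ) = 0 := by
  rw [← map_eq_zero_iff ev h.inj, funext_iff]
  simp only [h.evT, Pi.zero_apply]

/-- vectors killed by a left ideal -/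
def Pair.perp (h : Pair ρ E T ev) (A : Ideal R) :
    Subrepresentation (ρ : Representation F G V) where
  toSubmodule := ⨅ a ∈ A, LinearMap.ker (E a)
  apply_mem_toSubmodule x φ hφ := by
    simp only [Submodule.mem_iInf, LinearMap.mem_ker] at hφ ⊢
    intro a ha
    obtain ⟨r, hr⟩ := h.bij.2 ((LinearMap.proj x).comp ev)
    have := hφ _ (A.mul_mem_left r ha)
    rwa [h.mul, hr, LinearMap.comp_apply, LinearMap.proj_apply, h.evT] at this

theorem Pair.mem_perp (h : Pair ρ E T ev) {A : Ideal R} {φ : V} :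
    φ ∈ (h.perp A).toSubmodule ↔ ∀ a ∈ A, E a φ = 0 := by
  simp only [Pair.perp, Submodule.mem_iInf, LinearMap.mem_ker]

/-- annihilator of a subrepresentation -/
def Pair.ann (h : Pair ρ E T ev) (W : Subrepresentation (ρ : Representation F G V)) : Ideal R where
  carrier := {a | ∀ φ ∈ W.toSubmodule, E a φ = 0}
  add_mem' ha hb φ hφ := by rw [map_add, LinearMap.add_apply, ha φ hφ, hb φ hφ, add_zero]
  zero_mem' φ _ := by simp
  smul_mem' r a ha φ hφ := by
    rw [smul_eq_mul, h.mul, h.T_zero.2 fun x => ha _ (W.apply_mem_toSubmodule x hφ), map_zero]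

theorem Pair.perp_ann (h : Pair ρ E T ev) (W : Subrepresentation (ρ : Representation F G V))
    {φ : V} (hφ : ∀ a ∈ h.ann W, E a φ = 0) : φ ∈ W.toSubmodule := by
  by_contra hn
  obtain ⟨l, h1, h2⟩ := Submodule.exists_dual_map_eq_bot_of_notMem hn inferInstance
  obtain ⟨a, rfl⟩ := h.bij.2 l
  refine h1 (hφ a fun ψ hψ => ?_)
  rw [← Submodule.mem_bot F, ← h2]
  exact Submodule.mem_map_of_mem hψ

theorem Pair.ann_perp (h : Pair ρ E T ev) (hE : ∀ v, ∃ j, v ∈ fil ρ j) (A : Ideal R)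
    (U : Submodule F V) [FiniteDimensional F U]
    (hU : ∀ φ, (∀ x, ρ x φ - φ ∈ (h.perp A).toSubmodule) → φ ∈ (h.perp A).toSubmodule ⊔ U)
    {b : R} (hb : b ∈ h.ann (h.perp A)) : b ∈ A := by
  classical
  obtain ⟨_, ⟨s, rfl⟩, hs⟩ := (wellFounded_lt (α := Submodule F U)).has_min
    (Set.range fun s : Finset A => ⨅ a ∈ s, LinearMap.ker ((E a.1).comp U.subtype)) ⟨_, ∅, rfl⟩
  have h1 : ∀ u ∈ U, (∀ a ∈ s, E a.1 u = 0) → u ∈ (h.perp A).toSubmodule := fun u hu h0 => by
    refine h.mem_perp.2 fun a ha => ?_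
    have h2 := eq_of_le_of_not_lt (biInf_mono fun x hx => Finset.mem_insert_of_mem hx)
      (hs _ ⟨insert ⟨a, ha⟩ s, rfl⟩)
    have h3 : (⟨u, hu⟩ : U) ∈ ⨅ a ∈ s, LinearMap.ker ((E a.1).comp U.subtype) := by
      simp only [Submodule.mem_iInf]
      exact h0
    rw [← h2] at h3
    simp only [Submodule.mem_iInf] at h3
    exact h3 _ (Finset.mem_insert_self _ _)
  let Φ : V →ₗ[F] s → V := LinearMap.pi fun a => T a.1.1
  have hΦ : ∀ φ, φ ∈ LinearMap.ker Φ ↔ ∀ a ∈ s, ∀ x, E a.1 (ρ x φ) = 0 := fun φ => by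
    simp only [LinearMap.mem_ker, Φ, funext_iff, LinearMap.pi_apply, Pi.zero_apply, h.T_zero,
      Subtype.forall' (p := fun a : A => a ∈ s)]
  have h4 : ∀ j φ, φ ∈ fil ρ j → φ ∈ LinearMap.ker Φ → φ ∈ (h.perp A).toSubmodule := fun j => by
    induction j with
    | zero =>
      intro φ hφ _
      rw [fil_zero, Submodule.mem_bot] at hφ
      rw [hφ]; exact Submodule.zero_mem _
    | succ j ih =>
      intro φ hφ hk
      obtain ⟨w, hw, u, hu, rfl⟩ := Submodule.mem_sup.1 (hU φ fun x =>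
        ih _ (mem_fil_succ.1 hφ x) (Submodule.sub_mem _ ((hΦ _).2 fun a ha y => by
          rw [← Module.End.mul_apply, ← map_mul]; exact (hΦ _).1 hk a ha _) hk))
      refine Submodule.add_mem _ hw (h1 u hu fun a ha => ?_)
      have := (hΦ _).1 hk a ha 1
      rwa [map_one, Module.End.one_apply, map_add, h.mem_perp.1 hw _ a.2, zero_add] at this
  have h5 : E b ∈ LinearMap.range Φ.dualMap := by
    rw [LinearMap.range_dualMap_eq_dualAnnihilator_ker, Submodule.mem_dualAnnihilator]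
    exact fun φ hφ => hb φ ((hE φ).elim fun j hj => h4 j φ hj hφ)
  obtain ⟨l, hl⟩ := h5
  choose r hr using fun a : s => h.bij.2 (l.comp (LinearMap.single F (fun _ : s => V) a))
  have h6 : b = ∑ a : s, r a * a.1.1 := h.bij.1 (LinearMap.ext fun φ => by
    rw [← hl, map_sum, LinearMap.sum_apply, LinearMap.dualMap_apply,
      ← Finset.univ_sum_single (Φ φ), map_sum]
    exact Finset.sum_congr rfl fun a _ => by rw [h.mul, hr]; rfl)
  rw [h6]
  exact A.sum_mem fun a _ => A.mul_mem_left _ a.1.2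

theorem Pair.iff (h : Pair ρ E T ev) (hE : ∀ v, ∃ j, v ∈ fil ρ j)
    (hU : ∀ W : Subrepresentation (ρ : Representation F G V), ∃ U : Submodule F V,
      FiniteDimensional F U ∧ ∀ φ, (∀ x, ρ x φ - φ ∈ W.toSubmodule) → φ ∈ W.toSubmodule ⊔ U)
    (k : ℕ) : DevLt k (⊥ : Ideal R) ⊤ ↔
      Dev k (⊥ : Subrepresentation (ρ : Representation F G V)) ⊤ := by
  rw [devLt_iff]
  constructor
  · intro hd
    refine Dev.comap (fun W => toDual (h.ann W)) (fun a b (hab : a.toSubmodule ≤ b.toSubmodule) r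
      hr φ hφ => hr φ (hab hφ)) (fun a b _ _ _ _ (hab : h.ann b ≤ h.ann a) φ hφ => ?_) bot_le
      (hd.shrink (le_top (a := h.ann ⊥)) (bot_le (a := h.ann ⊤)))
    exact h.perp_ann b fun r hr => hab hr φ hφ
  · intro hd
    refine Dev.comap (fun A : (Ideal R)ᵒᵈ => h.perp (ofDual A)) (fun a b hab φ hφ => ?_)
      (fun a b _ _ _ _ hab r hr => ?_) (bot_le (α := Ideal R)) (hd.shrink bot_le le_top)
    · exact h.mem_perp.2 fun r hr => h.mem_perp.1 hφ r (hab hr)
    · obtain ⟨U, _, h1⟩ := hU (h.perp (ofDual a))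
      exact h.ann_perp hE _ U h1 fun φ hφ => h.mem_perp.1 (hab hφ) r hr

end Pool.Agent.P.MP_22cf7a_nt.KD
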