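import Pool.Agent.P.MP_22cf7a_nt.KD.Ar

/-! The chain of subgroups and the count for two by two matrices. -/

set_option autoImplicit false

namespace Pool.Agent.P.MP_22cf7a_nt.KD

open Pool.Agent.P.MP_7cb106_nt.BI Pool.Agent.P.MP_22cf7a_nt.FL Module

variable {p : ℕ} [Fact p.Prime] {O : Type} [CommRing O] [Algebra ℤ_[p] O] {f e : ℕ}

/-- scalar matrices -/
def sZ (p : ℕ) (O : Type) [CommRing O] (e : ℕ) : Set (Cg O (Fin 2) ((p : O) ^ e)) :=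
  {z | ∃ c : O, z.1.1 = Matrix.scalar _ c}

/-- scalar multiples of unipotent matrices with vanishing last coordinates -/
def sU (ω : Basis (Fin f) ℤ_[p] O) (e i : ℕ) : Set (Cg O (Fin 2) ((p : O) ^ e)) :=
  {k | k.1.1 1 0 = 0 ∧ k.1.1 0 0 = k.1.1 1 1 ∧
    ∃ s, k.1.1 0 1 = s * k.1.1 1 1 ∧ ∀ n : Fin f, i ≤ n → ω.coord n s = 0}

/-- upper triangular matrices with prescribed ratio of the diagonal entries -/
def sT (ω : Basis (Fin f) ℤ_[p] O) (e i : ℕ) : Set (Cg O (Fin 2) ((p : O) ^ e)) :=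
  {k | k.1.1 1 0 = 0 ∧ (k.1.1 0 0 = k.1.1 1 1 ∨ ∃ n : Fin f, (n : ℕ) < i ∧ ∃ a : ℕ,
    k.1.1 0 0 = (1 + (p : O) ^ e * ω n) ^ a * k.1.1 1 1)}

variable [Module.Finite ℤ_[p] O] {F : Type} [Field F] [CharP F p]
  {hΓ : Antitone (Gam p O (Fin 2) e)} {hN : ∀ l, (Gam p O (Fin 2) e l).Normal}

theorem sm_frac (he : 3 ≤ p ^ e) (l : O →ₗ[ℤ_[p]] ℤ_[p]) (i : Fin 2) (j : ℕ) :
    ∃ n, ∀ x : Cg O (Fin 2) ((p : O) ^ e), ∀ γ ∈ Gam p O (Fin 2) e n, (p : ℤ_[p]) ^ (e + j + 1) ∣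
      l ((x * γ).1.1 i (1 - i) * Ring.inverse ((x * γ).1.1 1 1)) -
        l (x.1.1 i (1 - i) * Ring.inverse (x.1.1 1 1)) := by
  refine ⟨j + 1, fun x γ hγ => ?_⟩
  rw [← map_sub, ← sub_zero (_ - _)]
  refine dv l (frac_dvd (unit_d he x) (unit_d he _) ?_)
  obtain ⟨y, hy⟩ := gam_ent x hγ i (1 - i)
  obtain ⟨y', hy'⟩ := gam_ent x hγ 1 1
  rw [hy, hy', add_assoc]
  exact ⟨y * x.1.1 1 1 - x.1.1 i (1 - i) * y', by ring⟩

theorem linkU (he : 3 ≤ p ^ e) (ω : Basis (Fin f) ℤ_[p] O) (i : Fin f) {k : ℕ}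
    (hd : Dev (k + 1) ⊥ (Inv F _ hΓ hN (sU ω e i))) : Dev k ⊥ (Inv F _ hΓ hN (sU ω e (i + 1))) := by
  choose h hh using fun j : ℕ => ex_el he (Matrix.single (0 : Fin 2) 1 ((p : O) ^ j * ω i))
  have h0 : ∀ j, (h j).1.1 0 0 = 1 ∧ (h j).1.1 0 1 = (p : O) ^ (e + j) * ω i ∧
      (h j).1.1 1 0 = 0 ∧ (h j).1.1 1 1 = 1 := fun j => by
    rw [hh]; simp [pow_add, mul_assoc]
  have hs : ∀ (k x : Cg O (Fin 2) ((p : O) ^ e)) (s : O), k.1.1 1 0 = 0 → k.1.1 0 0 = k.1.1 1 1 →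
      k.1.1 0 1 = s * k.1.1 1 1 → (k * x).1.1 0 1 * Ring.inverse ((k * x).1.1 1 1) =
        x.1.1 0 1 * Ring.inverse (x.1.1 1 1) + s := fun k x s h1 h2 h3 => by
    have := frac_dvd (q := 0) (s := s) (c := x.1.1 0 1) (c' := (k * x).1.1 0 1) (unit_d he x)
      (unit_d he (k * x)) (by rw [mul_ent, mul_ent, h1, h2, h3, zero_dvd_iff]; ring)
    rw [zero_dvd_iff] at this
    linear_combination this
  refine link_dig (H := sU ω e i) (H' := sU ω e (i + 1)) (fun k hk => ⟨hk.1, hk.2.1, hk.2.2.imp fun s hs => ⟨hs.1, fun n hn =>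
    hs.2 n (by omega)⟩⟩) e h (fun j => ?_)
    (fun _ x => ω.coord i (x.1.1 0 1 * Ring.inverse (x.1.1 1 1))) (sm_frac he _ 0) ?_ ?_ hd
  · obtain ⟨h1, h2, h3, h4⟩ := h0 j
    refine ⟨h3, h1.trans h4.symm, _, by rw [h2, h4, mul_one], fun n hn => ?_⟩
    have : i ≠ n := fun e => by rw [e] at hn; omega
    rw [pw_smul, map_smul]
    simp [this]
  · rintro j k ⟨h1, h2, s, h3, h4⟩ x
    rw [hs k x s h1 h2 h3, map_add, h4 i le_rfl]
    simp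
  · intro j n _ x
    obtain ⟨h1, h2, h3, h4⟩ := h0 n
    rw [hs _ x _ h3 (h1.trans h4.symm) (by rw [h2, h4, mul_one]), map_add, pw_smul, map_smul]
    simp

theorem linkG (he : 3 ≤ p ^ e) (ω : Basis (Fin f) ℤ_[p] O) (i : Fin f) {k : ℕ}
    (hd : Dev (k + 1) ⊥ (Inv F _ hΓ hN (sT ω e f))) : Dev k ⊥ (Inv F _ hΓ hN Set.univ) := by
  choose h hh using fun j : ℕ => ex_el he (Matrix.single (1 : Fin 2) 0 ((p : O) ^ j * ω i))
  have h0 : ∀ j, (h j).1.1 1 0 = (p : O) ^ (e + j) * ω i ∧ (h j).1.1 1 1 = 1 := fun j => by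
    rw [hh]; simp [pow_add, mul_assoc]
  obtain ⟨e', rfl⟩ : ∃ e', e = e' + 1 := ⟨e - 1, by
    rcases e with _ | e
    · simp at he
    · rfl⟩
  refine link_dig (Set.subset_univ _) (e' + 1) h (fun _ => trivial)
    (fun _ x => ω.coord i (x.1.1 1 0 * Ring.inverse (x.1.1 1 1))) (sm_frac he _ 1) ?_ ?_ hd
  · rintro j k ⟨h1, -⟩ x
    rw [frac_eq (c := x.1.1 1 0) (unit_d he x) (unit_d he (k * x))
      (by rw [mul_ent, mul_ent, h1]; ring), sub_self]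
    exact dvd_zero _
  · intro j n hn x
    obtain ⟨h1, h2⟩ := h0 n
    obtain ⟨m, rfl⟩ := Nat.exists_eq_add_of_le hn
    have e1 : (p : ℤ_[p]) ^ (e' + 1 + (j + m)) = ω.coord i ((p : O) ^ (e' + 1 + (j + m)) * ω i) := by
      rw [pw_smul, map_smul]; simp
    rw [e1, ← map_sub, ← map_sub]
    refine dv _ (frac_dvd (unit_d he x) (unit_d he _) ?_)
    obtain ⟨a, b, c, d, h3, h4, h5, h6⟩ := ent x
    rw [mul_ent, mul_ent, h1, h2, h3, h4, h5, h6]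
    exact ⟨(p : O) ^ m * ω i * (p ^ e' * (a - d + p ^ (e' + 1) * (a * d - b * c - d * d)) -
      p ^ (e' + (e' + 1 + (j + m))) * ω i * b * (1 + p ^ (e' + 1) * d)), by ring⟩

theorem linkT [IsDomain O] (he : 3 ≤ p ^ e) (ω : Basis (Fin f) ℤ_[p] O) (i : Fin f) {k : ℕ}
    (hd : Dev (k + 1) ⊥ (Inv F _ hΓ hN (sT ω e i))) : Dev k ⊥ (Inv F _ hΓ hN (sT ω e (i + 1))) := by
  have : Module.Free ℤ_[p] O := Module.Free.of_basis ω
  have hq : ∀ n : ℕ, (p : O) ^ n ≠ 0 := fun n => pow_ne_zero _ p_ne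
  have pw : ∀ (j : ℕ) (y : O), ∃ z, (1 + (p : O) ^ e * y) ^ p ^ j =
      1 + (p : O) ^ (e + j) * (y + p * z) := fun j y => by
    obtain ⟨z, hz⟩ := all_PWR p O O e j y he
    exact ⟨z, by simp only [smul_eq_mul] at hz; rw [hz]; ring⟩
  let u : Cg O (Fin 2) ((p : O) ^ e) → O := fun x =>
    (x.1.1 0 0 * x.1.1 1 1 - x.1.1 0 1 * x.1.1 1 0) * Ring.inverse (x.1.1 1 1 * x.1.1 1 1)
  have hu : ∀ x : Cg O (Fin 2) ((p : O) ^ e), IsUnit (x.1.1 1 1 * x.1.1 1 1) := fun x =>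
    (unit_d he x).mul (unit_d he x)
  have u1 : ∀ x, ∃ y, u x = 1 + (p : O) ^ e * y := fun x => by
    obtain ⟨a, b, c, d, h3, h4, h5, h6⟩ := ent x
    obtain ⟨y, hy⟩ := frac_dvd (q := (p : O) ^ e) (s := 0) (c := 1) (d := 1)
      (c' := x.1.1 0 0 * x.1.1 1 1 - x.1.1 0 1 * x.1.1 1 0) isUnit_one (hu x) (by
        rw [h3, h4, h5, h6]
        exact ⟨a - d + p ^ e * (a * d - b * c - d * d), by ring⟩)
    rw [Ring.inverse_one] at hy
    exact ⟨y, by linear_combination hy⟩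
  have u2 : ∀ (k x : Cg O (Fin 2) ((p : O) ^ e)) (τ : O), k.1.1 1 0 = 0 →
      k.1.1 0 0 = τ * k.1.1 1 1 → u (k * x) = τ * u x := fun k x τ h1 h2 => by
    rw [← mul_assoc]
    exact frac_eq (hu x) (hu _) (by simp only [mul_ent, h1, h2]; ring)
  have hL : ∀ (j : ℕ) x, ∃ y, u x ^ p ^ j = 1 + (p : O) ^ (e + j) * y := fun j x => by
    obtain ⟨y, hy⟩ := u1 x
    obtain ⟨z, hz⟩ := pw j y
    exact ⟨_, by rw [hy, hz]⟩
  choose L hL using hL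
  choose z hz using fun (j : ℕ) (n : Fin f) => pw j (ω n)
  choose l hl using fun j : ℕ => dual ω (z j)
  have u3 : ∀ (j : ℕ) (k x : Cg O (Fin 2) ((p : O) ^ e)) (n : Fin f) (a : ℕ), k.1.1 1 0 = 0 →
      k.1.1 0 0 = (1 + (p : O) ^ e * ω n) ^ a * k.1.1 1 1 → (p : ℤ_[p]) ^ (0 + j + 1) ∣
        l (j + 1) i (L (j + 1) (k * x)) - l (j + 1) i (L (j + 1) x) -
          a * if i = n then 1 else 0 := fun j k x n a h1 h2 => by
    obtain ⟨w, hw⟩ := pow_exp ((p : O) ^ (e + (j + 1))) (ω n + p * z (j + 1) n) a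
    have h3 := hL (j + 1) (k * x)
    rw [u2 k x _ h1 h2, mul_pow, hL, ← pow_mul, mul_comm a, pow_mul, hz, hw] at h3
    rw [← hl (j + 1) i n, ← nsmul_eq_mul, ← map_nsmul, ← map_sub, ← map_sub]
    refine dv _ ⟨(p : O) ^ e * (w + (a * (ω n + p * z (j + 1) n) + p ^ (e + (j + 1)) * w) *
      L (j + 1) x), mul_left_cancel₀ (hq (e + (j + 1))) ?_⟩
    rw [nsmul_eq_mul]
    linear_combination -h3
  have hh : ∀ j : ℕ, ∃ h : Cg O (Fin 2) ((p : O) ^ e), h.1.1 1 0 = 0 ∧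
      h.1.1 0 0 = (1 + (p : O) ^ e * ω i) ^ p ^ j * h.1.1 1 1 := fun j => by
    obtain ⟨h, hh⟩ := ex_el he (Matrix.single (0 : Fin 2) 0 ((p : O) ^ j * (ω i + p * z j i)))
    exact ⟨h, by rw [hh]; simp, by rw [hh, hz]; simp [pow_add, mul_assoc]⟩
  choose h h1 h2 using hh
  refine link_dig (H := sT ω e i) (H' := sT ω e (i + 1))
    (fun k hk => ⟨hk.1, hk.2.imp id fun ⟨n, hn, ha⟩ => ⟨n, by omega, ha⟩⟩) 0 h
    (fun j => ⟨h1 j, Or.inr ⟨i, Nat.lt_succ_self _, _, h2 j⟩⟩)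
    (fun j x => l (j + 1) i (L (j + 1) x)) (fun j => ⟨j + 1 + (j + 1), fun x γ hγ => ?_⟩) ?_ ?_ hd
  · have h3 : (p : O) ^ (e + (j + 1 + (j + 1))) ∣ u (x * γ) - u x := by
      rw [← sub_zero (_ - _)]
      refine frac_dvd (hu x) (hu _) ?_
      choose y hy using gam_ent x hγ
      simp only [hy]
      generalize (p : O) ^ (e + (j + 1 + (j + 1))) = q
      exact ⟨(y 0 0 * x.1.1 1 1 + x.1.1 0 0 * y 1 1 + q * y 0 0 * y 1 1 - y 0 1 * x.1.1 1 0 -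
        x.1.1 0 1 * y 1 0 - q * y 0 1 * y 1 0) * (x.1.1 1 1 * x.1.1 1 1) -
        (x.1.1 0 0 * x.1.1 1 1 - x.1.1 0 1 * x.1.1 1 0) * (2 * x.1.1 1 1 * y 1 1 + q * y 1 1 ^ 2),
        by ring⟩
    obtain ⟨w, hw⟩ := h3.trans (sub_dvd_pow_sub_pow _ _ (p ^ (j + 1)))
    rw [hL, hL] at hw
    rw [← map_sub]
    refine dv _ ⟨w, mul_left_cancel₀ (hq (e + (j + 1))) ?_⟩
    linear_combination hw
  · rintro j k ⟨h3, h4 | ⟨n, hn, a, h4⟩⟩ x
    · simpa using u3 j k x i 0 h3 (by rw [h4, pow_zero, one_mul])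
    · have : i ≠ n := fun e => by rw [e] at hn; omega
      simpa [this] using u3 j k x n a h3 h4
  · intro j n _ x
    simpa using u3 j (h n) x i _ (h1 n) (h2 n)

theorem lower [IsDomain O] (he : 3 ≤ p ^ e) (ω : Basis (Fin f) ℤ_[p] O) (hf : 0 < f) :
    ¬ Dev (2 * f + 1) ⊥ (Inv F _ hΓ hN (sZ p O e)) := fun h => by
  have h1 : ∀ i k, i ≤ f → Dev (k + i) ⊥ (Inv F _ hΓ hN (sU ω e 0)) →
      Dev k ⊥ (Inv F _ hΓ hN (sU ω e i)) := fun i => by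
    induction i with
    | zero => exact fun _ _ => id
    | succ i ih => exact fun k hi hd => linkU he ω ⟨i, hi⟩ (ih (k + 1) (by omega)
        (by rwa [add_assoc, add_comm 1 i]))
  have h2 : ∀ i k, i ≤ f → Dev (k + i) ⊥ (Inv F _ hΓ hN (sT ω e 0)) →
      Dev k ⊥ (Inv F _ hΓ hN (sT ω e i)) := fun i => by
    induction i with
    | zero => exact fun _ _ => id
    | succ i ih => exact fun k hi hd => linkT he ω ⟨i, hi⟩ (ih (k + 1) (by omega)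
        (by rwa [add_assoc, add_comm 1 i]))
  refine not_dev_zero _ (linkG he ω ⟨0, hf⟩ (h2 f (0 + 1) le_rfl
    ((h1 f (0 + 1 + f) le_rfl ?_).shrink le_rfl (Inv_anti fun k hk => ⟨hk.1, Or.inl hk.2.1⟩))))
  rw [show 0 + 1 + f + f = 2 * f + 1 by ring]
  refine h.shrink le_rfl (Inv_anti ?_)
  rintro k ⟨c, hc⟩
  exact ⟨by rw [hc]; simp, by rw [hc]; simp, 0, by rw [hc]; simp, fun _ _ => map_zero _⟩

end Pool.Agent.P.MP_22cf7a_nt.KD
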