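import Mathlib

/-! Deviation of a poset and completed group algebras. -/

set_option autoImplicit false

namespace Pool.Agent.P.MP_22cf7a_nt.KD

/-- `DevLt 0 a b`: the interval `[a, b]` is trivial.  `DevLt (k + 1) a b`: in every descending
chain inside `[a, b]` all but finitely many steps satisfy `DevLt k`.  So `DevLt (k + 1) a b` says
that the deviation of the poset `[a, b]` is at most `k`. -/
def DevLt {L : Type} [Preorder L] : ℕ → L → L → Prop
  | 0, a, b => b ≤ a
  | k + 1, a, b => ∀ x : ℕ → L, Antitone x → (∀ i, a ≤ x i ∧ x i ≤ b) →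
      ∃ N, ∀ i, N ≤ i → DevLt k (x (i + 1)) (x i)

/-- The Krull dimension (Gabriel and Rentschler) of the ring `R` is at most `k`: the poset of left
ideals has deviation at most `k`. -/
def KrullLE (R : Type) [Ring R] (k : ℕ) : Prop := DevLt (k + 1) (⊥ : Ideal R) ⊤

/-- The compatible families in the product of the group algebras `F[G / N l]`. -/
def Lim (F : Type) {G : Type} [Field F] [Group G] (N : ℕ → Subgroup G) [∀ l, (N l).Normal] :
    Subring (∀ l, MonoidAlgebra F (G ⧸ N l)) where
  carrier := {x | ∀ l m (h : N l ≤ N m),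
    MonoidAlgebra.mapDomain (Subgroup.quotientMapOfLE h) (x l) = x m}
  mul_mem' := fun {x y} hx hy l m h => by
    rw [Pi.mul_apply, Pi.mul_apply, ← hx l m h, ← hy l m h]
    exact MonoidAlgebra.mapDomain_mul (QuotientGroup.map (N l) (N m) (MonoidHom.id G) h) (x l) (y l)
  one_mem' := fun l m h =>
    MonoidAlgebra.mapDomain_one (QuotientGroup.map (N l) (N m) (MonoidHom.id G) h)
  add_mem' := fun {x y} hx hy l m h => by
    rw [Pi.add_apply, Pi.add_apply, ← hx l m h, ← hy l m h, MonoidAlgebra.mapDomain_add]
  zero_mem' := fun l m h => MonoidAlgebra.mapDomain_zero _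
  neg_mem' := fun {x} hx l m h => by
    rw [Pi.neg_apply, Pi.neg_apply, ← hx l m h]
    exact map_neg (MonoidAlgebra.mapDomainRingHom F
      (QuotientGroup.map (N l) (N m) (MonoidHom.id G) h)) (x l)

/-- The inverse limit of the group algebras `F[G / N l]`. -/
def Iw (F : Type) {G : Type} [Field F] [Group G] (N : ℕ → Subgroup G) [∀ l, (N l).Normal] :
    Type := Lim F N

noncomputable instance instRingIw (F : Type) {G : Type} [Field F] [Group G] (N : ℕ → Subgroup G)
    [∀ l, (N l).Normal] : Ring (Iw F N) := (Lim F N).toRing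

end Pool.Agent.P.MP_22cf7a_nt.KD
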