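import Pool.Agent.P.MP_22cf7a_nt.KD.Dual

/-! The completed group algebra is the dual of the smooth functions. -/

set_option autoImplicit false

namespace Pool.Agent.P.MP_22cf7a_nt.KD

open Pool.Agent.P.MP_7cb106_nt.BI Pool.Agent.P.MP_22cf7a_nt.FL Module

variable {F G : Type} [Field F]

/-- pairing of a function with an element of the group algebra -/
noncomputable def lc {Q : Type} (r : MonoidAlgebra F Q) : (Q → F) →ₗ[F] F where
  toFun ψ := Finsupp.linearCombination F ψ r.coeff
  map_add' a b := by simp [Finsupp.linearCombination_apply, mul_add, Finsupp.sum_add]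
  map_smul' c a := by
    simp [Finsupp.linearCombination_apply, Finsupp.mul_sum, mul_left_comm]

theorem lc_single {Q : Type} (q : Q) (c : F) (ψ : Q → F) :
    lc (MonoidAlgebra.single q c) ψ = c * ψ q := by simp [lc]

theorem lc_add {Q : Type} (r s : MonoidAlgebra F Q) (ψ : Q → F) :
    lc (r + s) ψ = lc r ψ + lc s ψ := by simp [lc]

theorem lc_zero {Q : Type} (ψ : Q → F) : lc (0 : MonoidAlgebra F Q) ψ = 0 := by simp [lc]

theorem lc_map {Q Q' : Type} (π : Q → Q') (r : MonoidAlgebra F Q) (ψ : Q' → F) :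
    lc (MonoidAlgebra.mapDomain π r) ψ = lc r (ψ ∘ π) :=
  Finsupp.linearCombination_mapDomain F π r.coeff

theorem lc_ext {Q : Type} {r s : MonoidAlgebra F Q} (h : ∀ ψ, lc r ψ = lc s ψ) : r = s := by
  classical
  have e : ∀ (r : MonoidAlgebra F Q) q, lc r (Pi.single q 1) = r.coeff q := fun r q => by
    induction r using MonoidAlgebra.induction_linear with
    | zero => simp [lc_zero]
    | add a b ha hb => simp [lc_add, ha, hb]
    | single a c => simp [lc_single, Pi.single_apply, Finsupp.single_apply]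
  ext q
  rw [← e, ← e, h]

theorem lc_mul {Q : Type} [Group Q] (r a : MonoidAlgebra F Q) (ψ : Q → F) :
    lc (r * a) ψ = lc r fun q => lc a fun q' => ψ (q * q') := by
  induction r using MonoidAlgebra.induction_linear with
  | zero => simp [lc_zero]
  | add x y hx hy => rw [add_mul, lc_add, lc_add, hx, hy]
  | single q c =>
    rw [lc_single]
    induction a using MonoidAlgebra.induction_linear with
    | zero => simp [lc_zero]
    | add x y hx hy => rw [mul_add, lc_add, lc_add, hx, hy, mul_add]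
    | single q' c' => rw [MonoidAlgebra.single_mul_single, lc_single, lc_single, mul_assoc]

theorem lc_surj {Q : Type} [Finite Q] (l : (Q → F) →ₗ[F] F) : ∃ r : MonoidAlgebra F Q, lc r = l := by
  classical
  have := Fintype.ofFinite Q
  refine ⟨.ofCoeff (Finsupp.equivFunOnFinite.symm fun q => l (Pi.single q 1)),
    LinearMap.ext fun ψ => ?_⟩
  conv_rhs => rw [← Finset.univ_sum_single ψ, map_sum]
  simp only [lc, LinearMap.coe_mk, AddHom.coe_mk, Finsupp.linearCombination_apply]
  rw [Finsupp.sum_fintype _ _ (by simp)]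
  refine Finset.sum_congr rfl fun q _ => ?_
  rw [show Pi.single q (ψ q) = ψ q • (Pi.single q 1 : Q → F) by rw [← Pi.single_smul]; simp,
    map_smul]
  simp [mul_comm]

variable [Group G]

theorem pair_iw (N : ℕ → Subgroup G) [hN : ∀ l, (N l).Normal] (hA : Antitone N)
    (hfin : ∀ l, Finite (G ⧸ N l)) (V : Subrepresentation (rt F G))
    (hV : ∀ φ, φ ∈ V.toSubmodule ↔ SmF N φ) :
    ∃ E T, Pair (R := Lim F N) (srep (rt F G) V.toSubmodule
      fun x _ hv => V.apply_mem_toSubmodule x hv) E T V.toSubmodule.subtype := by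
  let τ := srep (rt F G) V.toSubmodule fun x _ hv => V.apply_mem_toSubmodule x hv
  let Lv : ℕ → (G → F) → Prop := fun l φ => ∀ x, ∀ γ ∈ N l, φ (x * γ) = φ x
  have lvm : ∀ {l m φ}, l ≤ m → Lv l φ → Lv m φ := fun h h1 x γ hγ => h1 x γ (hA h hγ)
  have out : ∀ {l φ}, Lv l φ → ∀ x : G, φ (x : G ⧸ N l).out⁻¹ = φ x⁻¹ := fun {l φ} h x => by
    obtain ⟨n, hn⟩ := QuotientGroup.mk_out_eq_mul (N l) x
    rw [hn, ← h x⁻¹ _ ((hN l).conj_mem _ (inv_mem n.2) x)]
    congr 1; group
  let P : ∀ l, Lim F N → (G → F) → F := fun l r φ => lc (r.1 l) fun q => φ q.out⁻¹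
  have ind : ∀ {l m} (r φ), l ≤ m → Lv l φ → P m r φ = P l r φ := fun {l m} r φ h h1 => by
    simp only [P]
    rw [← r.2 m l (hA h), lc_map]
    congr 1
    funext q
    obtain ⟨x, rfl⟩ := QuotientGroup.mk_surjective q
    exact (out (lvm h h1) x).trans (out h1 x).symm
  choose lev hlev using fun φ : V.toSubmodule => (hV φ.1).1 φ.2
  have key : ∀ {l} r (φ : V.toSubmodule), Lv l φ.1 → P (lev φ) r φ.1 = P l r φ.1 :=
    fun {l} r φ h => (ind r _ (le_max_left _ l) (hlev φ)).symm.trans (ind r _ (le_max_right _ _) h)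
  let E0 : Lim F N → Module.Dual F V.toSubmodule := fun r =>
    { toFun := fun φ => P (lev φ) r φ.1
      map_add' := fun a b => by
        have ha := lvm (le_max_left _ (lev b)) (hlev a)
        have hb := lvm (le_max_right (lev a) _) (hlev b)
        rw [key r a ha, key r b hb, key (l := max (lev a) (lev b)) r (a + b) fun x γ hγ => by
          simp only [Submodule.coe_add, Pi.add_apply, ha x γ hγ, hb x γ hγ]]
        exact map_add (lc (r.1 _)) _ _
      map_smul' := fun c a => by
        rw [key (l := lev a) r (c • a) fun x γ hγ => by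
          simp only [Submodule.coe_smul, Pi.smul_apply, hlev a x γ hγ]]
        exact map_smul (lc (r.1 _)) c _ }
  have hE : ∀ {l} r (φ : V.toSubmodule), Lv l φ.1 → E0 r φ = P l r φ.1 := key
  let E : Lim F N →+ Module.Dual F V.toSubmodule := AddMonoidHom.mk' E0 fun r s =>
    LinearMap.ext fun φ => lc_add _ _ _
  have lvT : ∀ {l} a (φ : V.toSubmodule), Lv l φ.1 → Lv l fun x => E0 a (τ x φ) :=
    fun a φ h x γ hγ => by
      have : τ γ φ = φ := Subtype.ext (funext fun y => h y γ hγ)
      simp only [map_mul, Module.End.mul_apply, this]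
  let T : Lim F N → V.toSubmodule →ₗ[F] V.toSubmodule := fun a =>
    LinearMap.codRestrict _ (LinearMap.pi fun x => (E0 a).comp (τ x))
      fun φ => (hV _).2 ⟨_, lvT a φ (hlev φ)⟩
  have lvΛ : ∀ l (ψ : G ⧸ N l → F), Lv l fun x => ψ (x⁻¹ : G) := fun l ψ x γ hγ => by
    have : (((x * γ)⁻¹ : G) : G ⧸ N l) = (x⁻¹ : G) := QuotientGroup.eq.2 (by
      simpa using (hN l).conj_mem γ hγ x)
    simp only [this]
  let Λ : ∀ l, (G ⧸ N l → F) →ₗ[F] V.toSubmodule := fun l =>
    LinearMap.codRestrict _ (LinearMap.funLeft F F fun x : G => ((x⁻¹ : G) : G ⧸ N l))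
      fun ψ => (hV _).2 ⟨l, lvΛ l ψ⟩
  have hΛ : ∀ l r ψ, E0 r (Λ l ψ) = lc (r.1 l) ψ := fun l r ψ => by
    rw [hE r _ (lvΛ l ψ)]
    simp only [P]
    congr 1
    funext q
    change ψ (q.out⁻¹⁻¹ : G) = ψ q
    rw [inv_inv, QuotientGroup.out_eq']
  refine ⟨E, T, ⟨fun r s h => ?_, fun l => ?_⟩, Subtype.val_injective, fun r a φ => ?_,
    fun _ _ _ => rfl⟩
  · refine Subtype.ext (funext fun l => lc_ext fun ψ => ?_)
    rw [← hΛ, ← hΛ]
    exact congrArg (fun e : Module.Dual F V.toSubmodule => e (Λ l ψ)) h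
  · choose r hr using fun m => lc_surj (l.comp (Λ m))
    refine ⟨⟨r, fun m n h => lc_ext fun ψ => ?_⟩, LinearMap.ext fun φ => ?_⟩
    · rw [lc_map, hr, hr]; rfl
    · change lc (r (lev φ)) _ = _
      rw [hr, LinearMap.comp_apply]
      congr 1
      refine Subtype.ext (funext fun x => ?_)
      exact (out (hlev φ) x⁻¹).trans (by rw [inv_inv])
  · have h := hlev φ
    change E0 (r * a) φ = E0 r (T a φ)
    rw [hE _ _ h, hE _ _ (lvT a φ h)]
    refine (lc_mul (r.1 _) (a.1 _) _).trans ?_
    simp only [P]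
    congr 1
    funext q
    change _ = E0 a (τ _ φ)
    rw [hE (l := lev φ) a _ fun x γ hγ => by
      have := h (x * q.out⁻¹) _ ((hN _).conj_mem' γ hγ q.out⁻¹)
      change φ.1 (x * γ * q.out⁻¹) = φ.1 (x * q.out⁻¹)
      rw [← this]; group]
    simp only [P]
    congr 1
    funext q'
    change _ = φ.1 (q'.out⁻¹ * q.out⁻¹)
    rw [← mul_inv_rev, ← out h (q.out * q'.out), QuotientGroup.mk_mul, QuotientGroup.out_eq',
      QuotientGroup.out_eq']

end Pool.Agent.P.MP_22cf7a_nt.KD
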