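import Pool.Agent.P.MP_22cf7a_nt.KD.GL2
import Pool.Agent.P.MP_22cf7a_nt.KD.Ring

/-! The exact value of the deviation. -/

set_option autoImplicit false

namespace Pool.Agent.P.MP_22cf7a_nt.KD

open Pool.Agent.P.MP_7cb106_nt.BI Pool.Agent.P.MP_22cf7a_nt.FL Module

variable {p : ℕ} [Fact p.Prime] {O : Type} [CommRing O] [IsDomain O] [Algebra ℤ_[p] O]
  [Module.Finite ℤ_[p] O] {f e : ℕ} {F : Type} [Field F]

theorem count (he : 3 ≤ p ^ e) (ω : Basis (Fin f) ℤ_[p] O) (l : ℕ)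
    (W : Submodule F (Cg O (Fin 2) ((p : O) ^ e) → F))
    (h1 : ∀ φ ∈ W, ∀ z ∈ sZ p O e, ∀ x, φ (z * x) = φ x)
    (h2 : ∀ φ ∈ W, ∀ x, ∀ γ ∈ Gam p O (Fin 2) e l, φ (x * γ) = φ x) :
    FiniteDimensional F W ∧ finrank F W ≤ p ^ (3 * f * l) := by
  have : NeZero (p ^ l) := ⟨pow_ne_zero _ (Fact.out : p.Prime).ne_zero⟩
  have hn : ∀ x : Cg O (Fin 2) ((p : O) ^ e), ∃ z ∈ sZ p O e, ∃ y, x = z * y ∧ ∃ v : Fin 3 → O,
      y.1.1 = 1 + (p : O) ^ e • !![0, v 0; v 1, v 2] := fun x => by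
    obtain ⟨a, -, -, -, ha, -⟩ := ent x
    obtain ⟨z, hz⟩ := ex_el he (Matrix.scalar (Fin 2) a)
    have hz' : z.1.1 = Matrix.scalar _ (1 + (p : O) ^ e * a) := by
      rw [hz]; ext i j; by_cases h : i = j <;> simp [h]
    obtain ⟨a', b, c, d, h3, h4, h5, h6⟩ := ent (z⁻¹ * x)
    have h7 := mul_ent z (z⁻¹ * x) 0 0
    rw [mul_inv_cancel_left, ha, hz'] at h7
    have h8 : (z⁻¹ * x).1.1 0 0 = 1 :=
      mul_left_cancel₀ (unit2 he a).ne_zero (by rw [mul_one]; simpa using h7.symm)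
    refine ⟨z, ⟨_, hz'⟩, z⁻¹ * x, (mul_inv_cancel_left z x).symm, ![b, c, d], ?_⟩
    ext i j
    fin_cases i <;> fin_cases j
    · simpa using h8
    · simpa using h4
    · simpa using h5
    · simpa using h6
  choose z hz y hy v hv using hn
  have := factor (fun x => pr ω 3 l (v x)) W fun φ hφ x x' h => by
    choose w hw using ((all_PRK p O f ω 3 l).2.1 _ _).1 h
    have e1 : (y x).1.1 = (y x').1.1 + (p : O) ^ (e + l) • !![0, w 0; w 1, w 2] := by
      rw [hv, hv]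
      ext i j
      fin_cases i <;> fin_cases j
      · simp
      · simp [sub_eq_iff_eq_add'.1 (hw 0), pow_add, mul_add, mul_assoc]
      · simp [sub_eq_iff_eq_add'.1 (hw 1), pow_add, mul_add, mul_assoc]
      · simp [sub_eq_iff_eq_add'.1 (hw 2), pow_add, mul_add, mul_assoc, add_assoc]
    have e2 : (y x')⁻¹ * y x ∈ Gam p O (Fin 2) e l :=
      mem_Gam.2 ⟨(y x').1⁻¹.1 * !![0, w 0; w 1, w 2], by
        change (y x').1⁻¹.1 * (y x).1.1 = _
        rw [e1, mul_add, Units.inv_mul, Matrix.mul_smul]⟩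
    rw [hy x, hy x', h1 φ hφ _ (hz x), h1 φ hφ _ (hz x'), ← h2 φ hφ (y x') _ e2,
      mul_inv_cancel_left]
  refine ⟨this.1, this.2.trans (le_of_eq ?_)⟩
  simp [← pow_mul, mul_comm l]

omit [Fact p.Prime] [IsDomain O] [Algebra ℤ_[p] O] [Module.Finite ℤ_[p] O] in
theorem sZ_comm {z : Cg O (Fin 2) ((p : O) ^ e)} (hz : z ∈ sZ p O e)
    (x : Cg O (Fin 2) ((p : O) ^ e)) : x * z = z * x := by
  obtain ⟨c, hc⟩ := hz
  refine Subtype.ext (Units.ext ?_)
  change x.1.1 * z.1.1 = z.1.1 * x.1.1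
  rw [hc]
  exact (Matrix.scalar_commute c (fun _ => Commute.all _ _) _).symm.eq

theorem main [CharP F p] [Module.Free ℤ_[p] O] (he : 3 ≤ p ^ e)
    (N : ℕ → Subgroup (Cg O (Fin 2) ((p : O) ^ e))) [hN : ∀ l, (N l).Normal]
    (hm : ∀ l x, x ∈ N l ↔ ∃ (c : O) (X : Matrix (Fin 2) (Fin 2) O),
      x.1.1 = Matrix.scalar _ c + (p : O) ^ (e + l) • X) (k : ℕ) :
    DevLt (k + 1) (⊥ : Ideal (Lim F N)) ⊤ ↔ 2 * finrank ℤ_[p] O + 1 ≤ k := by
  classical
  have hp := (Fact.out : p.Prime).two_le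
  let ω := Module.finBasis ℤ_[p] O
  obtain ⟨D, g, hW⟩ := all_WUA p O (Fin 2) e he
  let V := Inv F _ hW.anti hW.normal (sZ p O e)
  let τ := srep (rt F _) V.toSubmodule fun x _ hv => V.apply_mem_toSubmodule x hv
  have n1 : ∀ l, ∀ z ∈ sZ p O e, z ∈ N l := fun l z ⟨c, hc⟩ => (hm l z).2 ⟨c, 0, by simp [hc]⟩
  have n2 : ∀ l, ∀ γ ∈ Gam p O (Fin 2) e l, γ ∈ N l := fun l γ hγ => by
    obtain ⟨X, hX⟩ := mem_Gam.1 hγ
    exact (hm l γ).2 ⟨1, X, by rw [hX, map_one]⟩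
  have n3 : ∀ l, ∀ x ∈ N l, ∃ z ∈ sZ p O e, z⁻¹ * x ∈ Gam p O (Fin 2) e l := fun l x hx => by
    obtain ⟨c, X, hX⟩ := (hm l x).1 hx
    obtain ⟨a, -, -, -, ha, -⟩ := ent x
    obtain ⟨z, hz⟩ := ex_el he (Matrix.scalar (Fin 2) (a - (p : O) ^ l * X 0 0))
    have h0 : c = 1 + (p : O) ^ e * (a - (p : O) ^ l * X 0 0) := by
      rw [hX] at ha
      simp only [Matrix.add_apply, Matrix.scalar_apply, Matrix.diagonal_apply_eq,
        Matrix.smul_apply, smul_eq_mul] at ha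
      linear_combination ha
    have hz' : z.1.1 = Matrix.scalar _ c := by
      rw [hz, h0]; ext i j; by_cases h : i = j <;> simp [h]
    refine ⟨z, ⟨c, hz'⟩, mem_Gam.2 ⟨z.1⁻¹.1 * X, ?_⟩⟩
    change z.1⁻¹.1 * x.1.1 = _
    rw [hX, ← hz', mul_add, Units.inv_mul, Matrix.mul_smul]
  have nA : Antitone N := fun l m h x hx => by
    obtain ⟨z, hz, h1⟩ := n3 m x hx
    rw [← mul_inv_cancel_left z x]
    exact (N l).mul_mem (n1 l z hz) (n2 l _ (hW.anti h h1))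
  have nF : ∀ l, Finite (Cg O (Fin 2) ((p : O) ^ e) ⧸ N l) := fun l => by
    have h1 := (count he ω l (LinearMap.range (LinearMap.funLeft F F
      (QuotientGroup.mk : _ → Cg O (Fin 2) ((p : O) ^ e) ⧸ N l)))
      (by
        rintro _ ⟨ψ, rfl⟩ z hz x
        simp only [LinearMap.funLeft_apply]
        rw [← sZ_comm hz, QuotientGroup.mk_mul_of_mem x (n1 l z hz)])
      (by
        rintro _ ⟨ψ, rfl⟩ x γ hγ
        simp only [LinearMap.funLeft_apply]
        rw [QuotientGroup.mk_mul_of_mem x (n2 l γ hγ)])).1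
    have h2 := (LinearEquiv.ofInjective _ (LinearMap.funLeft_injective_of_surjective F F _
      (QuotientGroup.mk_surjective (s := N l)))).symm.finiteDimensional
    exact (Pi.linearIndependent_single_one _ F).finite
  have hV : ∀ φ, φ ∈ V.toSubmodule ↔ SmF N φ := fun φ =>
    ⟨fun ⟨⟨l, hl⟩, h2⟩ => ⟨l, fun x γ hγ => by
      obtain ⟨z, hz, h1⟩ := n3 l γ hγ
      rw [← mul_inv_cancel_left z γ, ← mul_assoc, hl _ _ h1, sZ_comm hz, h2 z hz]⟩,
    fun ⟨l, hl⟩ => ⟨⟨l, fun x γ hγ => hl x γ (n2 l γ hγ)⟩, fun z hz x => by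
      rw [← sZ_comm hz, hl x z (n1 l z hz)]⟩⟩
  have hS : Sm (Gam p O (Fin 2) e) τ := fun φ => φ.2.1.imp fun l hl x hx =>
    Subtype.ext (funext fun y => hl y x hx)
  have hZ : ∀ z ∈ sZ p O e, τ z = 1 := fun z hz => by
    refine LinearMap.ext fun φ => Subtype.ext (funext fun x => ?_)
    change φ.1 (x * z) = φ.1 x
    rw [sZ_comm hz, φ.2.2 z hz]
  have hc : ∀ l, FiniteDimensional F (fil τ (p ^ l)) ∧
      finrank F (fil τ (p ^ l)) ≤ p ^ (3 * finrank ℤ_[p] O * l) := fun l => by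
    obtain ⟨h1, h2⟩ := count he ω l ((fil τ (p ^ l)).map V.toSubmodule.subtype)
      (by rintro _ ⟨φ, -, rfl⟩; exact φ.2.2) (by
        rintro _ ⟨φ, hφ, rfl⟩ x γ hγ
        have h3 := Esh_apply_eq_zero (mem_Ssh.1 (all_A1 p e F _ _ _ D g τ hW hS l hγ)) hφ le_rfl
        rw [LinearMap.sub_apply, Module.End.one_apply, sub_eq_zero] at h3
        exact congrFun (congrArg Subtype.val h3) x)
    rw [Submodule.finrank_map_subtype_eq] at h2
    exact ⟨(Submodule.equivSubtypeMap _ _).symm.finiteDimensional, h2⟩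
  have hfin : ∀ J, FiniteDimensional F (fil τ J) := fun J => by
    have := (hc J).1
    exact Submodule.finiteDimensional_of_le (fil_mono (ρ := τ) (Nat.lt_pow_self hp).le)
  have hE := all_EXH p e F _ _ _ D g τ hW hS
  obtain ⟨d, φ, hL⟩ := all_LDA p e F _ _ _ D g τ hW hS (hfin 1)
  obtain ⟨E, T, hP⟩ := pair_iw N nA nF V hV
  rw [hP.iff hE fun W => by
    obtain ⟨c0, h0⟩ := arq hL hE W.toSubmodule fun x _ hv => W.apply_mem_toSubmodule x hv
    refine ⟨_, hfin (1 + c0), fun ψ hψ => h0 1 ψ (mem_fil_one.2 fun x => ?_)⟩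
    rw [qrep_mk, ← sub_eq_zero, ← map_sub, Submodule.mkQ_apply, Submodule.Quotient.mk_eq_zero]
    exact hψ x]
  refine ⟨fun h => ?_, fun h => Dev.mono ?_ (by omega : 2 * finrank ℤ_[p] O + 2 ≤ k + 1)⟩
  · by_contra hk
    refine lower (F := F) (hΓ := hW.anti) (hN := hW.normal) he ω Module.finrank_pos
      (Dev.comap (fun W : Subrepresentation (rt F _) =>
      (⟨W.toSubmodule.comap V.toSubmodule.subtype, fun x _ hv => W.apply_mem_toSubmodule x hv⟩ :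
        Subrepresentation (τ : Representation F _ _)))
      (fun a b (hab : a.toSubmodule ≤ b.toSubmodule) _ hv => hab hv)
      (fun a b _ ha _ _ hab v hv => ?_) bot_le ((h.mono (by omega)).shrink bot_le le_top))
    exact hab (x := ⟨v, ha hv⟩) hv
  · exact upper p e (finrank ℤ_[p] O * 1) hW hS (sZ p O e) hZ hfin
      (fun W _ _ σ h1 h3 => all_CORE p O 1 e he F W σ h1 fun z a ha => h3 z ⟨a, ha⟩)
      (2 * finrank ℤ_[p] O) (σ := ⊥) (σ' := ⊤) ⟨1, fun l => by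
        have := (hc l).1
        refine (Submodule.finrank_mono inf_le_right).trans ((hc l).2.trans ?_)
        rw [one_mul, show finrank ℤ_[p] O * 1 + 2 * finrank ℤ_[p] O = 3 * finrank ℤ_[p] O by ring]
        exact Nat.le_add_left _ _⟩

end Pool.Agent.P.MP_22cf7a_nt.KD
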